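import Mathlib

set_option autoImplicit false

namespace Pool.Agent.Results.MP_4df60b_co.Fdim

open Finset

/-- The convex geometry `P(k,n)` on `Fin n` (the ground element `x` stands for `x + 1`). -/
abbrev P (k n : ℕ) : Type :=
  {A : Finset (Fin n) // ∀ m, A.card = k + m → ∀ x : Fin n, (x : ℕ) < m → x ∈ A}

/-- Linear extensions of a poset `Q`, as linear order relations containing `≤`. -/
def LinExt (Q : Type) [PartialOrder Q] : Type :=
  {r : Q → Q → Prop // IsLinearOrder Q r ∧ ∀ a b, a ≤ b → r a b}

noncomputable instance (Q : Type) [PartialOrder Q] [Finite Q] : Fintype (LinExt Q) :=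
  @Fintype.ofFinite _ Subtype.finite

open Classical in
/-- Fractional dimension: the infimum of the total weight of a fractional realizer. -/
noncomputable def fdim (Q : Type) [PartialOrder Q] [Finite Q] : ℝ :=
  sInf {s | ∃ w : LinExt Q → ℝ, (∀ L, 0 ≤ w L) ∧
    (∀ a b : Q, ¬ a ≤ b → ¬ b ≤ a → 1 ≤ ∑ L, if L.1 b a then w L else 0) ∧ s = ∑ L, w L}

variable {k n : ℕ}

/-- The rank putting the chosen elements on top. -/
def rk (R : Fin n → Bool) (x : Fin n) : ℕ := if R x then n + x else x

theorem rk_inj (R : Fin n → Bool) : Function.Injective (rk R) := fun x y h => by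
  have := x.2
  have := y.2
  unfold rk at h
  ext
  split_ifs at h <;> omega

/-- The colexicographic linear extension attached to `R`. -/
def ext (R : Fin n → Bool) : LinExt (P k n) :=
  ⟨fun A B => toColex (A.1.image (rk R)) ≤ toColex (B.1.image (rk R)),
    { refl := fun _ => le_rfl
      trans := fun _ _ _ => le_trans
      antisymm := fun _ _ h h' => Subtype.ext (image_injective (rk_inj R)
        (toColex_inj.1 (le_antisymm h h')))
      total := fun _ _ => le_total _ _ },
    fun _ _ h => Colex.toColex_le_toColex_of_subset (image_subset_image h)⟩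

theorem few (B : P k n) (j : Fin n) (hj : j ∉ B.1) : (B.1.filter fun x => j < x).card ≤ k := by
  by_contra h
  obtain ⟨i, hi, hmin⟩ := exists_min_image (univ.filter fun x => x ∉ B.1) id ⟨j, by simpa⟩
  simp only [mem_filter, mem_univ, true_and, id] at hi hmin
  have h2 : B.1.card ≤ k + i := by
    by_contra h
    exact hi (B.2 (B.1.card - k) (by omega) i (by omega))
  have h3 : Iio i ∪ B.1.filter (fun x => j < x) ⊆ B.1 :=
    union_subset (fun x hx => by
      by_contra e
      exact (mem_Iio.1 hx).not_ge (hmin x e)) (filter_subset _ _)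
  have h4 := card_le_card h3
  rw [card_union_of_disjoint (disjoint_left.2 fun x h5 h6 =>
    ((mem_Iio.1 h5).trans_le (hmin j hj)).not_gt (mem_filter.1 h6).2), Fin.card_Iio] at h4
  exact h (Nat.le_of_add_le_add_left (h4.trans (h2.trans_eq (add_comm _ _))))

open Classical in
theorem prob (p : ℝ) (h0 : 0 ≤ p) (h1 : p ≤ 1) (A B : P k n) (h : ¬ A ≤ B) :
    p * (1 - p) ^ k ≤ ∑ R : Fin n → Bool,
      if (ext R).1 B A then ∏ x, (if R x then p else 1 - p) else 0 := by
  obtain ⟨j, hA, hB⟩ := not_subset.1 h
  set S := B.1.filter fun x => j < x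
  have hq : 0 ≤ 1 - p := by linarith
  have e := Fintype.prod_sum fun (x : Fin n) (b : Bool) =>
    if b then (if x ∈ S then 0 else p) else (if x = j then 0 else 1 - p)
  have hjS : j ∉ S := by simp [S]
  refine le_trans ?_ (e.le.trans (sum_le_sum fun R _ => ?_))
  · rw [prod_congr rfl (g := fun x => (if x = j then p else 1) * if x ∈ S then 1 - p else 1)
      fun x _ => by
        by_cases h2 : x = j
        · simp [h2, hjS]
        · by_cases h3 : x ∈ S <;> simp [h2, h3], prod_mul_distrib, prod_ite_eq', prod_ite_mem]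
    simp only [mem_univ, if_true, univ_inter, prod_const]
    exact mul_le_mul_of_nonneg_left (pow_le_pow_of_le_one hq (by linarith) (few B j hB)) h0
  · split_ifs with hr
    · refine prod_le_prod (fun x _ => ?_) fun x _ => ?_ <;> split_ifs <;> linarith
    · by_contra hc
      have hne := prod_ne_zero_iff.1 (not_le.1 hc).ne'
      have hj : R j = true := by
        by_contra e
        exact hne j (mem_univ _) (by simp [e])
      refine hr ((Colex.toColex_lt_singleton (a := rk R j)).2 ?_ |>.le.trans
        (Colex.toColex_le_toColex_of_subset (singleton_subset_iff.2 (mem_image_of_mem _ hA))))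
      intro b hb
      obtain ⟨x, hx, rfl⟩ := mem_image.1 hb
      have := x.2
      unfold rk
      rw [if_pos hj]
      split_ifs with hR
      · have h2 : x ∉ S := fun h2 => hne x (mem_univ _) (by simp [hR, h2])
        have h3 : ¬ j < x := fun h3 => h2 (mem_filter.2 ⟨hx, h3⟩)
        have h4 : x ≠ j := fun h4 => hB (h4 ▸ hx)
        have : x < j := lt_of_le_of_ne (not_lt.1 h3) h4
        omega
      · omega

theorem upper (k n : ℕ) (hk : 1 ≤ k) : fdim (P k n) ≤ ((k : ℝ) + 1) ^ (k + 1) / k ^ k := by
  classical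
  have hk' : (0 : ℝ) < k := by exact_mod_cast hk
  set p : ℝ := 1 / (k + 1) with hp
  set c : ℝ := ((k : ℝ) + 1) ^ (k + 1) / k ^ k with hc
  have h0 : 0 ≤ p := by positivity
  have h1 : p ≤ 1 := by rw [hp, div_le_one (by positivity)]; linarith
  have hq : 0 ≤ 1 - p := by linarith
  set μ : (Fin n → Bool) → ℝ := fun R => ∏ x, (if R x then p else 1 - p)
  have hμ : ∀ R, 0 ≤ μ R := fun R => prod_nonneg fun x _ => by split_ifs <;> assumption
  refine csInf_le ⟨0, ?_⟩ ⟨fun L => c * ∑ R with ext R = L, μ R, fun L =>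
    mul_nonneg (by positivity) (sum_nonneg fun R _ => hμ R), fun a b hab _ => ?_, ?_⟩
  · rintro _ ⟨w, hw, -, rfl⟩
    exact sum_nonneg fun L _ => hw L
  · have : c * (p * (1 - p) ^ k) = 1 := by
      rw [hc, hp, one_sub_div (by positivity), div_pow]
      field_simp
      ring
    refine (this.ge.trans (mul_le_mul_of_nonneg_left (prob p h0 h1 a b hab) (by positivity))).trans
      (le_of_eq ?_)
    rw [← sum_fiberwise univ ext, mul_sum]
    refine sum_congr rfl fun L _ => ?_
    split_ifs with hL
    · exact congrArg _ (sum_congr rfl fun R hR => if_pos ((mem_filter.1 hR).2 ▸ hL))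
    · rw [sum_eq_zero fun R hR => if_neg ((mem_filter.1 hR).2 ▸ hL), mul_zero]
  · rw [← mul_sum, sum_fiberwise univ ext, ← Fintype.prod_sum fun (_ : Fin n) (b : Bool) =>
      if b then p else 1 - p]
    simp

theorem result : (∀ k n : ℕ, 1 ≤ k → fdim (P k n) ≤ ((k : ℝ) + 1) ^ (k + 1) / k ^ k) ∧
    ¬ ∀ k : ℕ, 1 ≤ k → ∀ ε : ℝ, 0 < ε → ∃ n₀ : ℕ, ∀ n, n₀ ≤ n → 2 ^ (k + 1) - ε < fdim (P k n) := by
  refine ⟨upper, fun h => ?_⟩
  obtain ⟨n, hn⟩ := h 2 one_le_two 1 one_pos
  have := (hn n le_rfl).trans_le (upper 2 n one_le_two)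
  norm_num at this

end Pool.Agent.Results.MP_4df60b_co.Fdim
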